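import Pool.Agent.Helper208.Rainbow.LLL

set_option autoImplicit false

namespace Run7.h524.Halving

open Finset

/-- number of colourings with prescribed values on `S` -/
theorem card_presc {κ : Type*} [Fintype κ] [DecidableEq κ] (S : Finset κ) (g : κ → Bool) :
    (univ.filter (fun ω : κ → Bool => ∀ k ∈ S, ω k = g k)).card * 2 ^ S.card =
      Fintype.card (κ → Bool) := by
  have h1 : univ.filter (fun ω : κ → Bool => ∀ k ∈ S, ω k = g k) =
      Fintype.piFinset (fun k => if k ∈ S then {g k} else (univ : Finset Bool)) := by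
    ext ω
    simp only [mem_filter, mem_univ, true_and, Fintype.mem_piFinset]
    constructor
    · intro h k
      by_cases hk : k ∈ S
      · simp [hk, h k hk]
      · simp [hk]
    · intro h k hk
      have := h k
      simpa [hk] using this
  rw [h1, Fintype.card_piFinset]
  have h2 : ∏ k : κ, (if k ∈ S then {g k} else (univ : Finset Bool)).card =
      ∏ k : κ, (if k ∈ S then 1 else 2) := by
    apply prod_congr rfl
    intro k _
    split_ifs <;> simp
  have h3 : (2 : ℕ) ^ S.card = ∏ k : κ, (if k ∈ S then 2 else 1) := by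
    rw [prod_ite_mem, univ_inter, prod_const]
  rw [h2, h3, ← prod_mul_distrib]
  have h4 : ∀ k : κ, (if k ∈ S then 1 else 2) * (if k ∈ S then 2 else 1) = 2 := by
    intro k
    split_ifs <;> rfl
  simp only [h4]
  simp

/-- Setting: `N` vertices numbered by an injection `e` on `[0,N)`, coins `Fin (N/2)`. -/
def red (e : ℕ → ℕ) (N : ℕ) (ω : Fin (N / 2) → Bool) : Finset ℕ :=
  univ.image (fun k : Fin (N / 2) => e (2 * k.val + (if ω k then 1 else 0)))

theorem red_card (e : ℕ → ℕ) (N : ℕ) (he : Set.InjOn e (Set.Iio N)) (ω : Fin (N / 2) → Bool) :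
    (red e N ω).card = N / 2 := by
  unfold red
  rw [card_image_of_injective]
  · simp
  · intro k l h
    have hk := k.isLt
    have hl := l.isLt
    have h1 : 2 * k.val + (if ω k then 1 else 0) < N := by split_ifs <;> omega
    have h2 : 2 * l.val + (if ω l then 1 else 0) < N := by split_ifs <;> omega
    have h3 := he h1 h2 h
    apply Fin.ext
    split_ifs at h3 <;> omega

theorem red_sub (e : ℕ → ℕ) (N : ℕ) (ω : Fin (N / 2) → Bool) :
    red e N ω ⊆ (range N).image e := by
  intro v hv
  unfold red at hv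
  rw [mem_image] at hv
  obtain ⟨k, _, rfl⟩ := hv
  apply mem_image_of_mem
  have hk := k.isLt
  rw [mem_range]
  split_ifs <;> omega

/-- membership in the red set for the two members of a pair -/
theorem mem_red (e : ℕ → ℕ) (N : ℕ) (he : Set.InjOn e (Set.Iio N)) (ω : Fin (N / 2) → Bool)
    (i : ℕ) (hi : i / 2 < N / 2) :
    e i ∈ red e N ω ↔ ω ⟨i / 2, hi⟩ = decide (i % 2 = 1) := by
  unfold red
  rw [mem_image]
  constructor
  · rintro ⟨k, _, hk⟩
    have hkl := k.isLt
    have h1 : 2 * k.val + (if ω k then 1 else 0) < N := by split_ifs <;> omega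
    have h2 : i < N := by omega
    have h3 := he h1 h2 hk
    have h4 : k = ⟨i / 2, hi⟩ := by
      apply Fin.ext
      show k.val = i / 2
      split_ifs at h3 <;> omega
    subst h4
    simp only at h3
    by_cases h5 : ω ⟨i / 2, hi⟩ = true
    · rw [h5] at h3 ⊢
      simp only [if_true] at h3
      symm
      rw [decide_eq_true_iff]
      omega
    · rw [Bool.not_eq_true] at h5
      rw [h5] at h3 ⊢
      symm
      rw [decide_eq_false_iff_not]
      simp at h3
      omega
  · intro h
    refine ⟨⟨i / 2, hi⟩, mem_univ _, ?_⟩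
    congr 1
    rw [h]
    simp only
    by_cases h5 : i % 2 = 1
    · simp [h5]; omega
    · simp [h5]; omega


/-- an event prescribing parities has small probability -/
theorem ev_card (N : ℕ) (b : Bool) (I : Finset ℕ) (hI : ∀ i ∈ I, i / 2 < N / 2) :
    (univ.filter (fun ω : Fin (N / 2) → Bool =>
      ∀ i (hi : i ∈ I), ω ⟨i / 2, hI i hi⟩ = xor b (decide (i % 2 = 1)))).card * 2 ^ I.card ≤
      Fintype.card (Fin (N / 2) → Bool) := by
  classical
  set E := univ.filter (fun ω : Fin (N / 2) → Bool =>
      ∀ i (hi : i ∈ I), ω ⟨i / 2, hI i hi⟩ = xor b (decide (i % 2 = 1))) with hE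
  rcases E.eq_empty_or_nonempty with h0 | ⟨ω0, hω0⟩
  · rw [h0]; simp
  · have hω0' : ∀ i (hi : i ∈ I), ω0 ⟨i / 2, hI i hi⟩ = xor b (decide (i % 2 = 1)) := by
      rw [hE, mem_filter] at hω0
      exact hω0.2
    set S : Finset (Fin (N / 2)) := univ.filter (fun k => 2 * k.val ∈ I ∨ 2 * k.val + 1 ∈ I) with hS
    have h1 : E ⊆ univ.filter (fun ω : Fin (N / 2) → Bool => ∀ k ∈ S, ω k = ω0 k) := by
      intro ω hω
      rw [hE, mem_filter] at hω
      rw [mem_filter]
      refine ⟨mem_univ _, fun k hk => ?_⟩
      rw [hS, mem_filter] at hk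
      rcases hk.2 with h | h
      · have e1 := hω.2 _ h
        have e2 := hω0' _ h
        have e3 : (⟨2 * k.val / 2, hI _ h⟩ : Fin (N / 2)) = k := by
          apply Fin.ext; show 2 * k.val / 2 = k.val; omega
        rw [e3] at e1 e2
        rw [e1, e2]
      · have e1 := hω.2 _ h
        have e2 := hω0' _ h
        have e3 : (⟨(2 * k.val + 1) / 2, hI _ h⟩ : Fin (N / 2)) = k := by
          apply Fin.ext; show (2 * k.val + 1) / 2 = k.val; omega
        rw [e3] at e1 e2
        rw [e1, e2]
    have h2 : I ⊆ S.image (fun k => 2 * k.val + (if xor b (ω0 k) then 1 else 0)) := by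
      intro i hi
      rw [mem_image]
      refine ⟨⟨i / 2, hI i hi⟩, ?_, ?_⟩
      · rw [hS, mem_filter]
        refine ⟨mem_univ _, ?_⟩
        simp only
        rcases Nat.mod_two_eq_zero_or_one i with h | h
        · left
          have : 2 * (i / 2) = i := by omega
          rw [this]; exact hi
        · right
          have : 2 * (i / 2) + 1 = i := by omega
          rw [this]; exact hi
      · rw [hω0' i hi]
        simp only
        have : xor b (xor b (decide (i % 2 = 1))) = decide (i % 2 = 1) := by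
          cases b <;> simp
        rw [this]
        rcases Nat.mod_two_eq_zero_or_one i with h | h
        · simp [h]; omega
        · simp [h]; omega
    have h3 : I.card ≤ S.card := (card_le_card h2).trans card_image_le
    calc E.card * 2 ^ I.card ≤ (univ.filter (fun ω : Fin (N / 2) → Bool => ∀ k ∈ S, ω k = ω0 k)).card *
          2 ^ S.card := Nat.mul_le_mul (card_le_card h1) (Nat.pow_le_pow_right (by norm_num) h3)
      _ = Fintype.card (Fin (N / 2) → Bool) := by convert card_presc S ω0


/-- coins relevant for the edge `A` -/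
def coins (e : ℕ → ℕ) (N : ℕ) (A : Finset ℕ) : Finset (Fin (N / 2)) :=
  univ.filter (fun k => e (2 * k.val) ∈ A ∨ e (2 * k.val + 1) ∈ A)

/-- the bad event of the edge `A` -/
def bad (e : ℕ → ℕ) (N : ℕ) (A : Finset ℕ) : Finset (Fin (N / 2) → Bool) :=
  univ.filter (fun ω => A ⊆ red e N ω ∨ A ∩ red e N ω = ∅)

theorem red_agree (e : ℕ → ℕ) (N : ℕ) (A : Finset ℕ) (ω ω' : Fin (N / 2) → Bool)
    (h : ∀ k ∈ coins e N A, ω k = ω' k) (v : ℕ) (hv : v ∈ A) (hr : v ∈ red e N ω) :
    v ∈ red e N ω' := by
  unfold red at hr ⊢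
  rw [mem_image] at hr ⊢
  obtain ⟨k, _, hk⟩ := hr
  refine ⟨k, mem_univ _, ?_⟩
  have hkc : k ∈ coins e N A := by
    unfold coins
    rw [mem_filter]
    refine ⟨mem_univ _, ?_⟩
    by_cases h5 : ω k = true
    · right
      rw [h5] at hk
      simp only [if_true] at hk
      rw [hk]; exact hv
    · left
      rw [Bool.not_eq_true] at h5
      rw [h5] at hk
      simp at hk
      rw [hk]; exact hv
  rw [← h k hkc]
  exact hk

theorem bad_dep (e : ℕ → ℕ) (N : ℕ) (A : Finset ℕ) :
    Pool.Agent.Helper208.Rainbow.DepOn (bad e N A) (coins e N A) := by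
  intro ω ω' h
  have h1 : ∀ v ∈ A, (v ∈ red e N ω ↔ v ∈ red e N ω') := fun v hv =>
    ⟨red_agree e N A ω ω' h v hv, red_agree e N A ω' ω (fun k hk => (h k hk).symm) v hv⟩
  unfold bad
  simp only [mem_filter, mem_univ, true_and]
  have h2 : A ⊆ red e N ω ↔ A ⊆ red e N ω' := by
    constructor
    · intro h v hv; exact (h1 v hv).1 (h hv)
    · intro h v hv; exact (h1 v hv).2 (h hv)
  have h3 : A ∩ red e N ω = A ∩ red e N ω' := by
    ext v
    simp only [mem_inter]
    constructor
    · rintro ⟨a, b⟩; exact ⟨a, (h1 v a).1 b⟩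
    · rintro ⟨a, b⟩; exact ⟨a, (h1 v a).2 b⟩
  rw [h2, h3]

theorem coins_card (e : ℕ → ℕ) (N : ℕ) (he : Set.InjOn e (Set.Iio N)) (A : Finset ℕ) :
    (coins e N A).card ≤ A.card := by
  classical
  apply card_le_card_of_injOn (fun k : Fin (N / 2) => if e (2 * k.val) ∈ A then e (2 * k.val)
    else e (2 * k.val + 1))
  · intro k hk
    simp only [coins, coe_filter, mem_univ, true_and, Set.mem_setOf_eq] at hk
    simp only [mem_coe]
    split_ifs with h
    · exact h
    · exact hk.resolve_left h
  · intro k _ l _ h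
    have hk := k.isLt
    have hl := l.isLt
    apply Fin.ext
    simp only at h
    split_ifs at h
    · have := he (show 2 * k.val ∈ Set.Iio N by simp; omega) (show 2 * l.val ∈ Set.Iio N by simp; omega) h
      omega
    · have := he (show 2 * k.val ∈ Set.Iio N by simp; omega) (show 2 * l.val + 1 ∈ Set.Iio N by simp; omega) h
      omega
    · have := he (show 2 * k.val + 1 ∈ Set.Iio N by simp; omega) (show 2 * l.val ∈ Set.Iio N by simp; omega) h
      omega
    · have := he (show 2 * k.val + 1 ∈ Set.Iio N by simp; omega) (show 2 * l.val + 1 ∈ Set.Iio N by simp; omega) h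
      omega

theorem bad_card (e : ℕ → ℕ) (N : ℕ) (he : Set.InjOn e (Set.Iio N)) (A : Finset ℕ)
    (hA : A ⊆ (range N).image e) :
    (bad e N A).card * 2 ^ (A.card - 1) ≤ 2 * Fintype.card (Fin (N / 2) → Bool) := by
  classical
  set I : Finset ℕ := (range N).filter (fun i => e i ∈ A ∧ i / 2 < N / 2) with hI
  have hI2 : ∀ i ∈ I, i / 2 < N / 2 := by
    intro i hi
    rw [hI, mem_filter] at hi
    exact hi.2.2
  have hcard : A.card - 1 ≤ I.card := by
    have h1 : A ⊆ insert (e (N - 1)) (I.image e) := by
      intro v hv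
      have h2 := hA hv
      rw [mem_image] at h2
      obtain ⟨i, hi, rfl⟩ := h2
      rw [mem_range] at hi
      rw [mem_insert]
      by_cases h3 : i / 2 < N / 2
      · right
        apply mem_image_of_mem
        rw [hI, mem_filter, mem_range]
        exact ⟨hi, hv, h3⟩
      · left
        have : i = N - 1 := by omega
        rw [this]
    have h2 := (card_le_card h1).trans (card_insert_le _ _)
    have h3 : (I.image e).card ≤ I.card := card_image_le
    omega
  have h1 := ev_card N false I hI2
  have h2 := ev_card N true I hI2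
  have h3 : bad e N A ⊆ (univ.filter (fun ω : Fin (N / 2) → Bool =>
      ∀ i (hi : i ∈ I), ω ⟨i / 2, hI2 i hi⟩ = xor false (decide (i % 2 = 1)))) ∪
      (univ.filter (fun ω : Fin (N / 2) → Bool =>
      ∀ i (hi : i ∈ I), ω ⟨i / 2, hI2 i hi⟩ = xor true (decide (i % 2 = 1)))) := by
    intro ω hω
    unfold bad at hω
    rw [mem_filter] at hω
    rw [mem_union, mem_filter, mem_filter]
    rcases hω.2 with h | h
    · left
      refine ⟨mem_univ _, fun i hi => ?_⟩
      have hi' := hi
      rw [hI, mem_filter] at hi'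
      have := (mem_red e N he ω i (hI2 i hi)).1 (h hi'.2.1)
      rw [this]; simp
    · right
      refine ⟨mem_univ _, fun i hi => ?_⟩
      have hi' := hi
      rw [hI, mem_filter] at hi'
      have h5 : e i ∉ red e N ω := by
        intro hc
        have : e i ∈ A ∩ red e N ω := mem_inter.2 ⟨hi'.2.1, hc⟩
        rw [h] at this
        simp at this
      have := (mem_red e N he ω i (hI2 i hi)).not.1 h5
      revert this
      cases ω ⟨i / 2, hI2 i hi⟩ <;> cases decide (i % 2 = 1) <;> simp
  have h4 := (card_le_card h3).trans (card_union_le _ _)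
  have h5 : 2 ^ (A.card - 1) ≤ 2 ^ I.card := Nat.pow_le_pow_right (by norm_num) hcard
  calc (bad e N A).card * 2 ^ (A.card - 1) ≤ (bad e N A).card * 2 ^ I.card :=
        Nat.mul_le_mul_left _ h5
    _ ≤ (_ + _) * 2 ^ I.card := Nat.mul_le_mul_right _ h4
    _ = _ * 2 ^ I.card + _ * 2 ^ I.card := add_mul _ _ _
    _ ≤ Fintype.card (Fin (N / 2) → Bool) + Fintype.card (Fin (N / 2) → Bool) := add_le_add h1 h2
    _ = 2 * Fintype.card (Fin (N / 2) → Bool) := by ring

/-- the quantitative statement -/
theorem main (n : ℕ) (hn : 5 ≤ n) (D : ℝ) (hD : 0 ≤ D) (hD2 : 48 * n * D ≤ 2 ^ n)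
    (F : Finset (Finset ℕ)) (hF : ∀ A ∈ F, A.card = n)
    (hdeg : ∀ v : ℕ, ((F.filter (fun A => v ∈ A)).card : ℝ) ≤ D) :
    ∃ R : Finset ℕ, R ⊆ F.biUnion id ∧ R.card = (F.biUnion id).card / 2 ∧
      ∀ A ∈ F, (A ∩ R).Nonempty ∧ ¬ A ⊆ R := by
  classical
  set V := F.biUnion id with hV
  set N := V.card with hN
  set e : ℕ → ℕ := fun i => if h : i < N then V.orderEmbOfFin rfl ⟨i, h⟩ else 0 with he
  have heinj : Set.InjOn e (Set.Iio N) := by
    intro i hi j hj h
    simp only [Set.mem_Iio] at hi hj
    simp only [he, hi, hj, dif_pos] at h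
    have := (V.orderEmbOfFin rfl).injective h
    simpa using this
  have heV : (range N).image e = V := by
    ext v
    rw [mem_image]
    constructor
    · rintro ⟨i, hi, rfl⟩
      rw [mem_range] at hi
      simp only [he, hi, dif_pos]
      exact V.orderEmbOfFin_mem rfl _
    · intro hv
      have h1 : v ∈ Set.range (V.orderEmbOfFin rfl) := by
        rw [V.range_orderEmbOfFin rfl]; exact hv
      obtain ⟨⟨i, hi⟩, hi2⟩ := h1
      refine ⟨i, mem_range.2 hi, ?_⟩
      simp only [he]
      rw [dif_pos hi]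
      exact hi2
  have hsub : ∀ A ∈ F, A ⊆ (range N).image e := by
    intro A hA
    rw [heV, hV]
    exact subset_biUnion_of_mem id hA
  have h2n : (0 : ℝ) < 2 ^ n := by positivity
  set x : ℝ := 12 / 2 ^ n with hx
  have hx0 : 0 ≤ x := by positivity
  have h32 : (32 : ℝ) ≤ 2 ^ n := by
    calc (32 : ℝ) = 2 ^ 5 := by norm_num
      _ ≤ 2 ^ n := pow_le_pow_right₀ (by norm_num) hn
  have hx1 : x ≤ 1 / 2 := by
    rw [hx, div_le_iff₀ h2n]; linarith
  obtain ⟨ω, hω⟩ := Pool.Agent.Helper208.Rainbow.lll_exp (κ := Fin (N / 2)) (α := Bool)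
    (ι := {A // A ∈ F}) (fun A => bad e N A.1) (fun A => coins e N A.1)
    (fun A => bad_dep e N A.1) (fun _ => x) (fun _ => hx0) (fun _ => hx1) (2 * D * x)
    (by
      intro k
      rw [sum_const, nsmul_eq_mul]
      apply mul_le_mul_of_nonneg_right _ hx0
      have h1 : ((univ.filter (fun j : {A // A ∈ F} => k ∈ coins e N j.1)).card : ℝ) ≤
          ((F.filter (fun A => e (2 * k.val) ∈ A)).card : ℝ) +
          ((F.filter (fun A => e (2 * k.val + 1) ∈ A)).card : ℝ) := by
        have h2 : (univ.filter (fun j : {A // A ∈ F} => k ∈ coins e N j.1)).card ≤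
            ((F.filter (fun A => e (2 * k.val) ∈ A)) ∪
            (F.filter (fun A => e (2 * k.val + 1) ∈ A))).card := by
          apply card_le_card_of_injOn (fun j : {A // A ∈ F} => j.1)
          · intro j hj
            simp only [coe_filter, mem_univ, true_and, Set.mem_setOf_eq, coins, mem_filter] at hj
            simp only [coe_union, coe_filter, Set.mem_union, Set.mem_setOf_eq]
            rcases hj with h | h
            · left; exact ⟨j.2, h⟩
            · right; exact ⟨j.2, h⟩
          · intro a _ b _ h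
            exact Subtype.ext h
        have h3 := h2.trans (card_union_le _ _)
        exact_mod_cast h3
      have h4 := hdeg (e (2 * k.val))
      have h5 := hdeg (e (2 * k.val + 1))
      linarith)
    (by
      rintro ⟨A, hA⟩
      have hcA := hF A hA
      have h1 := bad_card e N heinj A (hsub A hA)
      rw [hcA] at h1
      have h1' : ((bad e N A).card : ℝ) * 2 ^ (n - 1) ≤ 2 * (Fintype.card (Fin (N / 2) → Bool) : ℝ) := by
        exact_mod_cast h1
      have h2 : (2 : ℝ) ^ n = 2 * 2 ^ (n - 1) := by
        rw [← pow_succ']; congr 1; omega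
      have hM : (0 : ℝ) ≤ (Fintype.card (Fin (N / 2) → Bool) : ℝ) := by positivity
      have h3 : ((bad e N A).card : ℝ) ≤ 4 / 2 ^ n * (Fintype.card (Fin (N / 2) → Bool) : ℝ) := by
        rw [div_mul_eq_mul_div, le_div_iff₀ h2n, h2]
        linarith
      have h4 : ((coins e N A).card : ℝ) ≤ n := by
        have := coins_card e N heinj A
        rw [hcA] at this
        exact_mod_cast this
      have h5 : 2 * (((coins e N A).card : ℝ) * (2 * D * x)) ≤ 1 := by
        have h6 : ((coins e N A).card : ℝ) * (2 * D * x) ≤ n * (2 * D * x) :=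
          mul_le_mul_of_nonneg_right h4 (by positivity)
        have h7 : 2 * ((n : ℝ) * (2 * D * x)) = (48 * n * D) / 2 ^ n := by
          rw [hx]; ring
        have h8 : (48 * n * D) / 2 ^ n ≤ 1 := by
          rw [div_le_one h2n]; exact hD2
        linarith
      have h6 : (1 : ℝ) / 3 ≤ Real.exp (-(2 * (((coins e N A).card : ℝ) * (2 * D * x)))) := by
        have h7 : Real.exp (-1) ≤ Real.exp (-(2 * (((coins e N A).card : ℝ) * (2 * D * x)))) :=
          Real.exp_le_exp.2 (by linarith)
        refine le_trans ?_ h7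
        rw [Real.exp_neg, one_div]
        apply inv_anti₀ (Real.exp_pos _)
        linarith [Real.exp_one_lt_d9]
      refine h3.trans (mul_le_mul_of_nonneg_right ?_ hM)
      calc (4 : ℝ) / 2 ^ n = x * (1 / 3) := by rw [hx]; ring
        _ ≤ x * _ := mul_le_mul_of_nonneg_left h6 hx0)
  refine ⟨red e N ω, ?_, red_card e N heinj ω, ?_⟩
  · have := red_sub e N ω
    rwa [heV] at this
  · intro A hA
    have h1 := hω ⟨A, hA⟩
    simp only [bad, mem_filter, mem_univ, true_and, not_or] at h1
    exact ⟨nonempty_iff_ne_empty.2 h1.2, h1.1⟩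

end Run7.h524.Halving
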